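import Mathlib

/-!
# Covering by geometric windows
-/

set_option autoImplicit false

namespace Pool.Agent.X120.Rec

/-- if every window `i + j`, `q (j + 3) ≤ i`, contains at most `M` bad indices, then there are `O(log X)` bad indices -/
theorem cover (q M : ℕ) (hq : 1 ≤ q) : ∃ C : ℝ, 0 ≤ C ∧ ∀ P : ℕ → Prop,
    (∀ i, ∃ S : Finset ℕ, S.card ≤ M ∧ ∀ j, q * (j + 3) ≤ i → P (i + j) → i + j ∈ S) →
    ∀ X : ℕ, 2 ≤ X → ∃ S : Finset ℕ, (S.card : ℝ) ≤ C * Real.log X ∧ ∀ n, 1 ≤ n → n ≤ X → P n → n ∈ S := by
  classical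
  have hq0 : (0 : ℝ) < q := by exact_mod_cast hq
  have hM0 : (0 : ℝ) ≤ M := Nat.cast_nonneg M
  have hlog2 : 0 < Real.log 2 := Real.log_pos (by norm_num)
  refine ⟨(16 * q + M) / Real.log 2 + 8 * q * M, by positivity, fun P hP => ?_⟩
  have key : ∀ X : ℕ, 1 ≤ X → ∃ S : Finset ℕ, (S.card : ℝ) ≤ 16 * q + M * (1 + 8 * q * Real.log X) ∧
      ∀ n, 1 ≤ n → n ≤ X → P n → n ∈ S := by
    intro X
    induction X using Nat.strong_induction_on with
    | _ X ih =>
      intro hX
      by_cases hXq : X < 16 * q
      · refine ⟨Finset.Icc 1 X, ?_, fun n h1 h2 _ => Finset.mem_Icc.2 ⟨h1, h2⟩⟩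
        rw [Nat.card_Icc, Nat.add_sub_cancel]
        have h1 : (X : ℝ) ≤ 16 * q := by exact_mod_cast hXq.le
        have h2 : 0 ≤ Real.log X := Real.log_nonneg (by exact_mod_cast hX)
        have h3 : 0 ≤ (M : ℝ) * (1 + 8 * q * Real.log X) := by positivity
        linarith
      push Not at hXq
      set a := X / (4 * q) with ha
      have ha1 : 4 ≤ a := (Nat.le_div_iff_mul_le (by omega)).2 (by omega)
      have ha2 : a * (4 * q) ≤ X := Nat.div_mul_le_self _ _
      have ha3 : X < (a + 1) * (4 * q) := by
        have h := Nat.lt_mul_div_succ X (b := 4 * q) (by omega)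
        rw [← ha] at h
        linarith
      set i := X - a with hi
      have haX : a ≤ X := by nlinarith
      have hiX : i < X := by omega
      have hi1 : 1 ≤ i := by
        have : a * 4 ≤ X := by nlinarith
        omega
      obtain ⟨S₁, hS₁, hm₁⟩ := ih i hiX hi1
      obtain ⟨S₂, hS₂, hm₂⟩ := hP i
      refine ⟨S₁ ∪ S₂, ?_, fun n h1 h2 hn => ?_⟩
      · have h1 : ((S₁ ∪ S₂).card : ℝ) ≤ S₁.card + S₂.card := by exact_mod_cast Finset.card_union_le _ _
        have h2 : (S₂.card : ℝ) ≤ M := by exact_mod_cast hS₂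
        have hX0 : (0 : ℝ) < X := by exact_mod_cast (by omega : 0 < X)
        have hi0 : (0 : ℝ) < i := by exact_mod_cast (by omega : 0 < i)
        have h3 : (i : ℝ) ≤ X * (1 - 1 / (8 * q)) := by
          have h4 : (i : ℝ) = X - a := by
            rw [hi, Nat.cast_sub haX]
          have h5 : (X : ℝ) < (a + 1) * (4 * q) := by exact_mod_cast ha3
          have h6 : (4 : ℝ) ≤ a := by exact_mod_cast ha1
          have h7 : (X : ℝ) * (1 / (8 * q)) ≤ a := by
            rw [mul_one_div, div_le_iff₀ (by positivity)]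
            nlinarith
          rw [h4]
          linarith
        have h8 : Real.log i ≤ Real.log X - 1 / (8 * q) := by
          have h9 : (0 : ℝ) < 1 - 1 / (8 * q) := by
            have : (1 : ℝ) / (8 * q) ≤ 1 / 8 := by
              apply one_div_le_one_div_of_le (by norm_num)
              have : (1 : ℝ) ≤ q := by exact_mod_cast hq
              linarith
            linarith
          calc Real.log i ≤ Real.log (X * (1 - 1 / (8 * q))) := Real.log_le_log hi0 h3
            _ = Real.log X + Real.log (1 - 1 / (8 * q)) := Real.log_mul hX0.ne' h9.ne'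
            _ ≤ Real.log X + (1 - 1 / (8 * q) - 1) := by
                gcongr
                exact Real.log_le_sub_one_of_pos h9
            _ = _ := by ring
        have h10 : 8 * q * Real.log i + 1 ≤ 8 * q * Real.log X := by
          have h11 : 8 * (q : ℝ) * Real.log i ≤ 8 * q * (Real.log X - 1 / (8 * q)) := by gcongr
          have h12 : 8 * (q : ℝ) * (Real.log X - 1 / (8 * q)) = 8 * q * Real.log X - 1 := by
            field_simp
          linarith
        calc ((S₁ ∪ S₂).card : ℝ) ≤ (16 * q + M * (1 + 8 * q * Real.log i)) + M := by linarith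
          _ = 16 * q + M * (1 + (8 * q * Real.log i + 1)) := by ring
          _ ≤ _ := by gcongr
      · by_cases hni : n ≤ i
        · exact Finset.mem_union_left _ (hm₁ n h1 hni hn)
        · push Not at hni
          refine Finset.mem_union_right _ ?_
          obtain ⟨j, rfl⟩ : ∃ j, n = i + j := ⟨n - i, by omega⟩
          refine hm₂ j ?_ hn
          have hja : j ≤ a := by omega
          have h5 : q * (j + 3) ≤ q * (a + 3) := Nat.mul_le_mul_left _ (by omega)
          have h6 : q * (a + 3) + a ≤ X := by nlinarith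
          omega
  intro X hX
  obtain ⟨S, hS, hm⟩ := key X (by omega)
  refine ⟨S, hS.trans ?_, hm⟩
  have h1 : Real.log 2 ≤ Real.log X := Real.log_le_log (by norm_num) (by exact_mod_cast hX)
  have h2 : (1 : ℝ) ≤ Real.log X / Real.log 2 := by rwa [le_div_iff₀ hlog2, one_mul]
  calc (16 * (q : ℝ) + M * (1 + 8 * q * Real.log X)) = (16 * q + M) * 1 + 8 * q * M * Real.log X := by ring
    _ ≤ (16 * q + M) * (Real.log X / Real.log 2) + 8 * q * M * Real.log X := by gcongr
    _ = _ := by ring

end Pool.Agent.X120.Rec
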