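import Pool.Agent.X120.Rec.Full

/-!
# Tuples of terms of the sequences `κ ^ n f(ρ ^ n)`: relations over given constants
-/

set_option autoImplicit false

open Module Polynomial

namespace Pool.Agent.X120.Rec

open Pool.Agent.Y916.Om

/-- the identity matrix -/
theorem ind_one (κ : Type) [Fintype κ] [DecidableEq κ] :
    LinearIndependent ℚ (fun p q : κ => if p = q then (1 : ℚ) else 0) := by
  have h1 := (Pi.basisFun ℚ κ).linearIndependent
  have h2 : (fun p q : κ => if p = q then (1 : ℚ) else 0) = ⇑(Pi.basisFun ℚ κ) := by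
    funext p q
    rw [Pi.basisFun_apply, Pi.single_apply]
    simp only [eq_comm]
  rw [h2]
  exact h1

/-- the numbers up to constants -/
theorem BadW.shift {d δ e : ℕ} {υ κ : Type} [Fintype κ] [DecidableEq κ] {w : υ → ℂ} {x y : κ → ℂ}
    (hx : ∀ s, x s - y s ∈ Submodule.span ℚ (insert 1 (Set.range w))) (h : BadW d δ e w x) :
    BadW d δ (e + δ) w y := by
  refine BadW.linear _ (ind_one κ) (fun p => ?_) h
  have h3 : ∑ t : κ, (((if p = t then (1 : ℚ) else 0 : ℚ)) : ℂ) * y t = y p := by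
    rw [Finset.sum_eq_single p]
    · simp
    · intro q _ hq
      rw [if_neg (Ne.symm hq)]
      simp
    · intro h
      exact absurd (Finset.mem_univ _) h
  rw [h3]
  exact hx p

/-- the theorem for `|ρ| < 1` -/
theorem coreB {k r : ℕ} (f : Fin (k + 1) → Fin r → ℂ[X])
    (hf : ∀ i s m, IsAlgebraic ℚ ((f i s).coeff m)) (hf0 : ∀ i s, (f i s).eval 0 ≠ 0) (hind : ∀ i, MulIndep (f i))
    (ρ : Fin (k + 1) → ℂ) (hρ : ∀ i, IsAlgebraic ℚ (ρ i)) (hρ0 : ∀ i, ρ i ≠ 0) (hρ1 : ∀ i, ‖ρ i‖ < 1)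
    (κ : Fin (k + 1) → Fin r → ℂ) (hκ0 : ∀ i s, κ i s ≠ 0) (d δ e τ A B : ℕ) :
    ∃ C : ℝ, ∀ (υ : Type) [Fintype υ] (w : υ → ℂ) (T₁ : Finset υ), T₁.card = τ → Dom A B w T₁ → ∀ T : ℕ, 2 ≤ T →
      ∃ S : Finset (Fin (k + 1) → ℕ), (S.card : ℝ) ≤ C * (T : ℝ) ^ k * Real.log T ∧
      ∀ n : Fin (k + 1) → ℕ, (∀ i, 1 ≤ n i ∧ n i ≤ T) → ∀ l : Fin (k + 1) × Fin r → ℂ,
        (∀ p, Complex.exp (l p) = κ p.1 p.2 ^ n p.1 * (f p.1 p.2).eval (ρ p.1 ^ n p.1)) → BadW d δ e w l →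
          n ∈ S := by
  classical
  have hfne : ∀ i s, f i s ≠ 0 := by
    rintro i s h
    apply hf0 i s
    rw [h, eval_zero]
  -- the zeros
  set Z : Fin (k + 1) → Finset ℂ := fun i => Finset.univ.biUnion fun s => (f i s).roots.toFinset with hZ
  set m : Fin (k + 1) → ℕ := fun i => (Z i).card with hm
  set ζ : ∀ i, Fin (m i) → ℂ := fun i t => (((Z i).equivFin.symm t : Z i) : ℂ) with hζ
  have hζi : ∀ i, Function.Injective (ζ i) := fun i => Subtype.val_injective.comp (Z i).equivFin.symm.injective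
  have hζs : ∀ i s z, (f i s).IsRoot z → ∃ t, ζ i t = z := by
    intro i s z hz
    have h1 : z ∈ Z i := Finset.mem_biUnion.2 ⟨s, Finset.mem_univ _, Multiset.mem_toFinset.2 ((mem_roots (hfne i s)).2 hz)⟩
    exact ⟨(Z i).equivFin ⟨z, h1⟩, by simp [hζ]⟩
  have hζr : ∀ i t, ∃ s, (f i s).IsRoot (ζ i t) := by
    intro i t
    obtain ⟨s, -, hs⟩ := Finset.mem_biUnion.1 ((Z i).equivFin.symm t).2
    exact ⟨s, (mem_roots (hfne i s)).1 (Multiset.mem_toFinset.1 hs)⟩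
  have hζ0 : ∀ i t, ζ i t ≠ 0 := by
    intro i t h
    obtain ⟨s, hs⟩ := hζr i t
    rw [h] at hs
    exact hf0 i s hs
  have hζa : ∀ i t, IsAlgebraic ℚ (ζ i t) := by
    intro i t
    obtain ⟨s, hs⟩ := hζr i t
    exact root_alg (hfne i s) (hf i s) hs
  -- the numbers
  set M : ∀ i, Fin r → Fin (m i) → ℚ := fun i s t => (((f i s).rootMultiplicity (ζ i t) : ℕ) : ℚ) with hM
  set y : ∀ i, ℕ → Fin (m i) → ℂ := fun i n t => Complex.log (1 - (ζ i t)⁻¹ * ρ i ^ n) with hy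
  set x : Fin (k + 1) → ℕ → Fin r → ℂ := fun i n s => ∑ t, ((M i s t : ℚ) : ℂ) * y i n t with hx
  have hfew : ∀ i, Few (x i) := by
    intro i
    have h1 := few_logs (hρ i) (hρ0 i) (hρ1 i) (fun t => (ζ i t)⁻¹) (fun t => (hζa i t).inv)
      (fun t => inv_ne_zero (hζ0 i t)) (fun t t' h => hζi i (inv_injective h))
    refine Few.linear (c := 0) h1 (x i) (M i) (rows_indep (f i) (hfne i) (hind i) (ζ i) (hζs i)) (fun j => j.elim0) ?_
    intro n s
    rw [hx]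
    simp only [hy, sub_self]
    exact Submodule.zero_mem _
  set υ₀ : Type := Option ((Fin (k + 1) × Fin r) ⊕ (Fin (k + 1) × Fin r)) with hυ₀
  obtain ⟨C, hC, htup⟩ := tuples (k + 1) x hfew d δ (e + δ) (τ + Fintype.card υ₀) A B
  refine ⟨C, fun υ _ w T₁ hT₁ hD T hT => ?_⟩
  set u₀ : υ₀ → ℂ := fun o => o.elim (2 * Real.pi * Complex.I)
    (Sum.elim (fun p => Complex.log (κ p.1 p.2)) fun p => Complex.log ((f p.1 p.2).eval 0)) with hu₀
  set w' : υ ⊕ υ₀ → ℂ := Sum.elim w u₀ with hw'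
  have hD' : Dom A B w' (T₁.disjSum Finset.univ) := by
    refine hD.of _ _ (fun j hj => ⟨Sum.inl j, Finset.inl_mem_disjSum.2 hj, rfl⟩) ?_
    rintro (j | j)
    · exact Or.inr ⟨j, rfl⟩
    · exact Or.inl (Finset.inr_mem_disjSum.2 (Finset.mem_univ _))
  obtain ⟨S, hS, hmem⟩ := htup (υ ⊕ υ₀) w' (T₁.disjSum Finset.univ) (by
    rw [Finset.card_disjSum, hT₁, Finset.card_univ]) hD' T hT
  refine ⟨S, ?_, ?_⟩
  · have hT0 : (0 : ℝ) < T := by exact_mod_cast (by omega : 0 < T)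
    have h1 : (S.card : ℝ) * T ≤ (C * (T : ℝ) ^ k * Real.log T) * T := hS.trans (le_of_eq (by ring))
    exact le_of_mul_le_mul_right h1 hT0
  intro n hn l hl hrel
  refine hmem n hn ?_
  have hb1 : BadW d δ e w' l := hrel.mono fun j => Or.inr ⟨Sum.inl j, rfl⟩
  refine BadW.shift (fun p => ?_) hb1
  obtain ⟨z, hz⟩ := log_diff (ζ p.1) (hζi p.1) (f p.1 p.2) (hf0 _ _) (hζs p.1 p.2) (κ p.1 p.2) (ρ p.1 ^ n p.1) (l p)
    (hκ0 _ _) (n p.1) (hl p)
  have h4 : l p - x p.1 (n p.1) p.2 = (z : ℚ) • u₀ none + (n p.1 : ℚ) • u₀ (some (Sum.inl p)) +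
      (1 : ℚ) • u₀ (some (Sum.inr p)) := by
    rw [Rat.smul_def, Rat.smul_def, one_smul]
    simp only [hu₀, Option.elim_none, Option.elim_some, Sum.elim_inl, Sum.elim_inr]
    push_cast
    rw [← hz, hx]
    simp only [hM, hy]
    push_cast
    rfl
  rw [h4]
  have hin : ∀ o, u₀ o ∈ Submodule.span ℚ (insert (1 : ℂ) (Set.range w')) := fun o =>
    Submodule.subset_span (Set.mem_insert_of_mem _ ⟨Sum.inr o, rfl⟩)
  exact Submodule.add_mem _ (Submodule.add_mem _ (Submodule.smul_mem _ _ (hin _)) (Submodule.smul_mem _ _ (hin _)))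
    (Submodule.smul_mem _ _ (hin _))


/-- **the theorem** -/
theorem fullB {k r : ℕ} (f : Fin (k + 1) → Fin r → ℂ[X])
    (hf : ∀ i s m, IsAlgebraic ℚ ((f i s).coeff m)) (hf0 : ∀ i s, (f i s).eval 0 ≠ 0) (hind : ∀ i, MulIndep (f i))
    (ρ : Fin (k + 1) → ℂ) (hρ : ∀ i, IsAlgebraic ℚ (ρ i)) (hρ0 : ∀ i, ρ i ≠ 0) (hρ1 : ∀ i, ‖ρ i‖ ≠ 1)
    (κ : Fin (k + 1) → Fin r → ℂ) (hκ0 : ∀ i s, κ i s ≠ 0) (d δ e τ A B : ℕ) :
    ∃ C : ℝ, ∀ (υ : Type) [Fintype υ] (w : υ → ℂ) (T₁ : Finset υ), T₁.card = τ → Dom A B w T₁ → ∀ T : ℕ, 2 ≤ T →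
      ∃ S : Finset (Fin (k + 1) → ℕ), (S.card : ℝ) ≤ C * (T : ℝ) ^ k * Real.log T ∧
      ∀ n : Fin (k + 1) → ℕ, (∀ i, 1 ≤ n i ∧ n i ≤ T) → ∀ l : Fin (k + 1) × Fin r → ℂ,
        (∀ p, Complex.exp (l p) = κ p.1 p.2 ^ n p.1 * (f p.1 p.2).eval (ρ p.1 ^ n p.1)) → BadW d δ e w l →
          n ∈ S := by
  classical
  obtain ⟨C, hC⟩ := coreB (fun i s => if ‖ρ i‖ < 1 then f i s else (f i s).reverse)
    (fun i s m => by
      split_ifs
      · exact hf i s m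
      · rw [coeff_reverse]
        exact hf i s _)
    (fun i s => by
      split_ifs
      · exact hf0 i s
      · rw [← coeff_zero_eq_eval_zero, coeff_zero_reverse]
        refine leadingCoeff_ne_zero.2 fun h => hf0 i s ?_
        rw [h, eval_zero])
    (fun i => by
      by_cases h : ‖ρ i‖ < 1
      · simp only [if_pos h]
        exact hind i
      · simp only [if_neg h]
        exact (hind i).reverse (hf0 i))
    (fun i => if ‖ρ i‖ < 1 then ρ i else (ρ i)⁻¹)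
    (fun i => by
      split_ifs
      · exact hρ i
      · exact (hρ i).inv)
    (fun i => by
      split_ifs
      · exact hρ0 i
      · exact inv_ne_zero (hρ0 i))
    (fun i => by
      split_ifs with h
      · exact h
      · rw [norm_inv]
        exact inv_lt_one_of_one_lt₀ (lt_of_le_of_ne (not_lt.1 h) (Ne.symm (hρ1 i))))
    (fun i s => if ‖ρ i‖ < 1 then κ i s else κ i s * ρ i ^ (f i s).natDegree)
    (fun i s => by
      split_ifs
      · exact hκ0 i s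
      · exact mul_ne_zero (hκ0 i s) (pow_ne_zero _ (hρ0 i)))
    d δ e τ A B
  refine ⟨C, fun υ _ w T₁ hT₁ hD T hT => ?_⟩
  obtain ⟨S, hS, hm⟩ := hC υ w T₁ hT₁ hD T hT
  refine ⟨S, hS, fun n hn l hl hrel => hm n hn l (fun p => ?_) hrel⟩
  rw [hl p]
  by_cases h : ‖ρ p.1‖ < 1
  · simp only [if_pos h]
  · simp only [if_neg h]
    rw [eval_reverse' _ (pow_ne_zero _ (hρ0 p.1)), mul_pow, inv_pow, ← pow_mul, ← pow_mul]
    rw [mul_comm (n p.1) _]
    ring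

end Pool.Agent.X120.Rec
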