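import Pool.Agent.Y916.Al.Win

/-!
# Heights of `γ ρ ^ j`
-/

set_option autoImplicit false

open Module Polynomial

namespace Pool.Agent.X120.Rec

open Pool.Agent.Y916.Ari Pool.Agent.Y916.Al

theorem adm_mono {d d' H H' : ℕ} {z : ℂ} (h : Adm d H z) (hd : d ≤ d') (hH : H ≤ H') : Adm d' H' z := by
  obtain ⟨p, h1, h2, h3, h4⟩ := h
  exact ⟨p, h1, h2.trans hd, fun l => (h3 l).trans (by exact_mod_cast hH), h4⟩

/-- a common denominator -/
theorem exists_den (K : IntermediateField ℚ ℂ) [FiniteDimensional ℚ K] (s : Finset K) :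
    ∃ a : ℕ, 1 ≤ a ∧ ∀ x ∈ s, IsIntegral ℤ ((a : K) * x) := by
  classical
  have : Algebra.IsAlgebraic ℤ K :=
    (IsFractionRing.comap_isAlgebraic_iff (A := ℤ) (K := ℚ) (C := K)).2 inferInstance
  obtain ⟨a, ha0, ha⟩ := Algebra.IsAlgebraic.exists_integral_multiples ℤ s
  refine ⟨a.natAbs, Nat.one_le_iff_ne_zero.2 (Int.natAbs_ne_zero.2 ha0), fun x hx => ?_⟩
  have h2 := ha x hx
  rw [zsmul_eq_mul] at h2
  rcases Int.natAbs_eq a with h | h
  · have h3 : ((a.natAbs : ℕ) : K) = (a : K) := by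
      rw [← Int.cast_natCast (R := K)]
      exact congrArg (Int.cast) h.symm
    rw [h3]
    exact h2
  · have h3 : ((a.natAbs : ℕ) : K) = -(a : K) := by
      rw [← Int.cast_natCast (R := K), ← Int.cast_neg]
      exact congrArg (Int.cast) (by omega)
    rw [h3, neg_mul]
    exact h2.neg

/-- a bound for all conjugates -/
theorem exists_bd (K : IntermediateField ℚ ℂ) [FiniteDimensional ℚ K] (s : Finset K) :
    ∃ B : ℕ, 1 ≤ B ∧ ∀ x ∈ s, ∀ σ : K →+* ℂ, ‖σ x‖ ≤ B := by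
  classical
  have : NumberField K := { to_charZero := inferInstance, to_finiteDimensional := inferInstance }
  obtain ⟨B, hB⟩ := exists_nat_ge (∑ x ∈ s, ∑ σ : K →+* ℂ, ‖σ x‖)
  refine ⟨B + 1, by omega, fun x hx σ => ?_⟩
  have h1 : ‖σ x‖ ≤ ∑ σ : K →+* ℂ, ‖σ x‖ :=
    Finset.single_le_sum (f := fun σ : K →+* ℂ => ‖σ x‖) (fun _ _ => norm_nonneg _) (Finset.mem_univ σ)
  have h2 : ∑ σ : K →+* ℂ, ‖σ x‖ ≤ ∑ x ∈ s, ∑ σ : K →+* ℂ, ‖σ x‖ :=
    Finset.single_le_sum (f := fun x => ∑ σ : K →+* ℂ, ‖σ x‖)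
      (fun _ _ => Finset.sum_nonneg fun _ _ => norm_nonneg _) hx
  push_cast
  linarith

/-- the height of an element of `K` -/
theorem adm_of_int (K : IntermediateField ℚ ℂ) [FiniteDimensional ℚ K] (x : K) (a B : ℕ) (ha : 1 ≤ a) (hB : 1 ≤ B)
    (hx : IsIntegral ℤ ((a : K) * x)) (hσ : ∀ σ : K →+* ℂ, ‖σ ((a : K) * x)‖ ≤ B) :
    Adm (finrank ℚ K) ((2 * a * B) ^ finrank ℚ K) (x : ℂ) := by
  have : NumberField K := { to_charZero := inferInstance, to_finiteDimensional := inferInstance }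
  set m := finrank ℚ K with hm
  set y : K := (a : K) * x with hy
  set q : ℤ[X] := minpoly ℤ y with hq
  have hqm : q.Monic := minpoly.monic hx
  have hmap : minpoly ℚ y = q.map (algebraMap ℤ ℚ) := minpoly.isIntegrallyClosed_eq_field_fractions' ℚ hx
  have hqd : q.natDegree ≤ m := by
    rw [← hqm.natDegree_map (algebraMap ℤ ℚ), ← hmap]
    exact minpoly.natDegree_le y
  have hB1 : (1 : ℝ) ≤ B := by exact_mod_cast hB
  have ha0 : a ≠ 0 := by omega
  have hcoef : ∀ i, |q.coeff i| ≤ ((B ^ m * 2 ^ m : ℕ) : ℤ) := by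
    intro i
    have h1 := NumberField.Embeddings.coeff_bdd_of_norm_le (x := y) (A := ℂ) hσ i
    rw [hmap, coeff_map, eq_intCast, Int.norm_cast_rat, Int.norm_eq_abs, max_eq_left hB1] at h1
    have h2 : ((m.choose (m / 2) : ℕ) : ℝ) ≤ 2 ^ m := by exact_mod_cast Nat.choose_le_two_pow m (m / 2)
    have h3 : (|(q.coeff i : ℝ)|) ≤ (B : ℝ) ^ m * 2 ^ m := by
      refine h1.trans ?_
      gcongr
    exact_mod_cast h3
  set p : ℤ[X] := q.comp (C (a : ℤ) * X) with hp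
  have haZ : (a : ℤ) ≠ 0 := by exact_mod_cast ha0
  have hlin : (C (a : ℤ) * X : ℤ[X]).natDegree = 1 := by
    rw [natDegree_C_mul_X _ haZ]
  refine ⟨p, ?_, ?_, fun l => ?_, ?_⟩
  · rw [hp]
    intro h0
    have h1 : q = 0 := by
      rcases comp_eq_zero_iff.1 h0 with h | ⟨-, h⟩
      · exact h
      · exfalso
        rw [h] at hlin
        simp at hlin
    exact hqm.ne_zero h1
  · rw [hp, natDegree_comp, hlin, mul_one]
    exact hqd
  · have h1 : p.coeff l = q.coeff l * (a : ℤ) ^ l := by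
      rw [hp]
      exact comp_C_mul_X_coeff
    rw [h1, abs_mul]
    by_cases hl : l ≤ m
    · have h2 : |(a : ℤ) ^ l| ≤ ((a ^ m : ℕ) : ℤ) := by
        rw [abs_pow, Nat.abs_cast]
        exact_mod_cast Nat.pow_le_pow_right ha hl
      calc |q.coeff l| * |(a : ℤ) ^ l| ≤ ((B ^ m * 2 ^ m : ℕ) : ℤ) * ((a ^ m : ℕ) : ℤ) :=
            mul_le_mul (hcoef l) h2 (abs_nonneg _) (by positivity)
        _ = (((2 * a * B) ^ m : ℕ) : ℤ) := by push_cast; ring
    · rw [coeff_eq_zero_of_natDegree_lt (by omega)]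
      simp only [abs_zero, zero_mul]
      positivity
  · rw [hp, aeval_comp, map_mul, aeval_C, aeval_X]
    have h1 : (algebraMap ℤ ℂ (a : ℤ)) * (x : ℂ) = algebraMap K ℂ y := by
      rw [hy, map_mul]
      simp
    rw [h1, aeval_algebraMap_apply, minpoly.aeval, map_zero]

/-- **the heights grow at most geometrically** -/
theorem adm_geom (K : IntermediateField ℚ ℂ) [FiniteDimensional ℚ K] (s : Finset K) (ρ : K) :
    ∃ C : ℕ, 2 ≤ C ∧ ∀ γ ∈ s, ∀ j : ℕ, Adm (finrank ℚ K) (C ^ (j + 1)) (((γ * ρ ^ j : K) : ℂ)) := by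
  classical
  obtain ⟨a, ha, hai⟩ := exists_den K (insert ρ s)
  obtain ⟨B, hB, hBd⟩ := exists_bd K ((insert ρ s).image fun x => (a : K) * x)
  refine ⟨2 * ((2 * a * B) ^ finrank ℚ K), ?_, fun γ hγ j => ?_⟩
  · have : 0 < (2 * a * B) ^ finrank ℚ K := by positivity
    omega
  have hσ : ∀ x ∈ insert ρ s, ∀ σ : K →+* ℂ, ‖σ ((a : K) * x)‖ ≤ B := fun x hx σ =>
    hBd _ (Finset.mem_image_of_mem _ hx) σ
  have hγ' : γ ∈ insert ρ s := Finset.mem_insert_of_mem hγ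
  have hρ' : ρ ∈ insert ρ s := Finset.mem_insert_self _ _
  have key : ((a ^ (j + 1) : ℕ) : K) * (γ * ρ ^ j) = ((a : K) * γ) * ((a : K) * ρ) ^ j := by
    push_cast
    ring
  have h1 := adm_of_int K (γ * ρ ^ j) (a ^ (j + 1)) (B ^ (j + 1)) (Nat.one_le_pow _ _ (by omega))
    (Nat.one_le_pow _ _ (by omega)) (by
      rw [key]
      exact (hai γ hγ').mul ((hai ρ hρ').pow j)) (fun σ => by
      rw [key, map_mul, map_pow, norm_mul, norm_pow]
      calc ‖σ ((a : K) * γ)‖ * ‖σ ((a : K) * ρ)‖ ^ j ≤ (B : ℝ) * (B : ℝ) ^ j := by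
            gcongr
            · exact hσ γ hγ' σ
            · exact hσ ρ hρ' σ
        _ = ((B ^ (j + 1) : ℕ) : ℝ) := by push_cast; ring)
  refine adm_mono h1 le_rfl ?_
  calc (2 * a ^ (j + 1) * B ^ (j + 1)) ^ finrank ℚ K ≤ (2 ^ (j + 1) * a ^ (j + 1) * B ^ (j + 1)) ^ finrank ℚ K := by
        gcongr
        exact Nat.le_self_pow (by omega) 2
    _ = ((2 * a * B) ^ finrank ℚ K) ^ (j + 1) := by
        rw [← mul_pow, ← mul_pow, ← pow_mul, ← pow_mul, mul_comm (j + 1) _]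
    _ ≤ (2 * ((2 * a * B) ^ finrank ℚ K)) ^ (j + 1) := by
        gcongr
        omega

/-- powers of a number of absolute value greater than `1` -/
theorem pt_pow (K : IntermediateField ℚ ℂ) [FiniteDimensional ℚ K] (θ : K) (hθ : 1 < ‖(θ : ℂ)‖) :
    ∃ (Ah : ℕ) (X : ℝ), 1 ≤ X ∧ ∀ i : ℕ, Pt K (θ ^ i) (X ^ i) ∧ X ^ i ≤ ‖((θ ^ i : K) : ℂ)‖ ^ Ah := by
  classical
  obtain ⟨a, ha, hai⟩ := exists_den K {θ}
  obtain ⟨B, hB, hBd⟩ := exists_bd K {(a : K) * θ, (a : K)}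
  have ha0 : (a : K) ≠ 0 := by
    have : a ≠ 0 := by omega
    exact_mod_cast this
  have haI : IsIntegral ℤ (a : K) := by
    have h1 : ((a : ℤ) : K) = (a : K) := by norm_cast
    rw [← h1, ← eq_intCast (algebraMap ℤ K)]
    exact isIntegral_algebraMap
  obtain ⟨Ah, hAh⟩ := pow_unbounded_of_one_lt (B : ℝ) hθ
  have hB1 : (1 : ℝ) ≤ B := by exact_mod_cast hB
  refine ⟨Ah, B, hB1, fun i => ⟨⟨((a : K) * θ) ^ i, (a : K) ^ i, (hai θ (by simp)).pow i, haI.pow i,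
    pow_ne_zero _ ha0, ?_, fun σ => ⟨?_, ?_⟩⟩, ?_⟩⟩
  · rw [mul_pow]
    field_simp
  · rw [map_pow, norm_pow]
    gcongr
    exact hBd _ (by simp) σ
  · rw [map_pow, norm_pow]
    gcongr
    exact hBd _ (by simp) σ
  · have h1 : ((θ ^ i : K) : ℂ) = (θ : ℂ) ^ i := by push_cast; rfl
    rw [h1, norm_pow, ← pow_mul, mul_comm i Ah, pow_mul]
    exact pow_le_pow_left₀ (by linarith) hAh.le i

end Pool.Agent.X120.Rec
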