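import Pool.Agent.X120.Rec.Lin
import Pool.Agent.X120.Rec.Ht
import Pool.Agent.X120.Rec.Cov
import Pool.Agent.Y916.Al.WinH

/-!
# Windows for the numbers `log (1 - γ_t ρ ^ n)`
-/

set_option autoImplicit false

open Module

namespace Pool.Agent.X120.Rec

open Pool.Agent.Y916.Om Pool.Agent.Y916.Ari Pool.Agent.Y916.Al

/-- the window `i + j`, `q (j + 3) ≤ i` -/
theorem window {ρ : ℂ} (hρ : IsAlgebraic ℚ ρ) (hρ0 : ρ ≠ 0) (hρ1 : ‖ρ‖ < 1) {r : ℕ} (γ : Fin r → ℂ)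
    (hγ : ∀ t, IsAlgebraic ℚ (γ t)) (hγ0 : ∀ t, γ t ≠ 0) (hinj : Function.Injective γ) (d δ e τ A B : ℕ) :
    ∃ q : ℕ, 1 ≤ q ∧ ∀ (υ : Type) [Fintype υ] (w : υ → ℂ) (T : Finset υ), T.card = τ → Dom A B w T →
      ∀ i : ℕ, ∃ S : Finset ℕ, S.card ≤ r * τ ∧ ∀ j, q * (j + 3) ≤ i →
        BadW d δ e w (fun t => Complex.log (1 - γ t * ρ ^ (i + j))) → i + j ∈ S := by
  classical
  set K₁ : IntermediateField ℚ ℂ := IntermediateField.adjoin ℚ (insert ρ (Set.range γ)) with hK₁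
  have hfd : FiniteDimensional ℚ K₁ := IntermediateField.finiteDimensional_adjoin (by
    rintro _ (rfl | ⟨j, rfl⟩)
    · exact hρ.isIntegral
    · exact (hγ j).isIntegral)
  set m := finrank ℚ K₁ with hm
  set ρK : K₁ := ⟨ρ, IntermediateField.subset_adjoin ℚ _ (Set.mem_insert _ _)⟩ with hρK
  set γK : Fin r → K₁ := fun t => ⟨γ t, IntermediateField.subset_adjoin ℚ _ (Set.mem_insert_of_mem _ ⟨t, rfl⟩)⟩
    with hγK
  obtain ⟨C, hC2, hadm⟩ := adm_geom K₁ (Finset.univ.image fun t => -γK t) ρK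
  have hρpos : 0 < ‖ρ‖ := norm_pos_iff.2 hρ0
  set θ : K₁ := ρK⁻¹ with hθ
  have hθv : ((θ : K₁) : ℂ) = ρ⁻¹ := by rw [hθ]; push_cast; rfl
  have hθn : ‖((θ : K₁) : ℂ)‖ = ‖ρ‖⁻¹ := by rw [hθv, norm_inv]
  have hθ1 : 1 < ‖((θ : K₁) : ℂ)‖ := by
    rw [hθn]
    exact (one_lt_inv₀ hρpos).2 hρ1
  obtain ⟨Ah, X, hX1, hpt⟩ := pt_pow K₁ θ hθ1
  obtain ⟨E, hE⟩ := windowH r (max d m) (e + δ) τ A B m Ah
  obtain ⟨q, hq⟩ := pow_unbounded_of_one_lt ((C : ℝ) ^ E) hθ1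
  refine ⟨q + 1, by omega, fun υ _ w T hT hD i => ?_⟩
  by_cases hi : (q + 1) * 3 ≤ i
  swap
  · exact ⟨∅, by simp, fun j hj => absurd (le_trans (Nat.mul_le_mul_left _ (by omega)) hj) hi⟩
  set J := i / (q + 1) - 3 with hJ
  have hJ3 : J + 3 = i / (q + 1) := by
    have : 3 ≤ i / (q + 1) := (Nat.le_div_iff_mul_le (by omega)).2 (by rw [mul_comm]; exact hi)
    omega
  have hJi : (q + 1) * (J + 3) ≤ i := by
    rw [hJ3]
    exact Nat.mul_div_le _ _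
  set H : ℕ := C ^ (J + 1) with hH
  have hCr : (2 : ℝ) ≤ C := by exact_mod_cast hC2
  have hH2 : (H : ℝ) + 2 ≤ (C : ℝ) ^ (J + 3) := by
    rw [hH]
    push_cast
    have h1 : (1 : ℝ) ≤ (C : ℝ) ^ (J + 1) := one_le_pow₀ (by linarith)
    have h2 : (C : ℝ) ^ (J + 3) = (C : ℝ) ^ (J + 1) * (C : ℝ) ^ 2 := by rw [← pow_add]
    have h3 : (4 : ℝ) ≤ (C : ℝ) ^ 2 := by nlinarith
    rw [h2]
    nlinarith
  have hHE : ((H : ℝ) + 2) ^ E ≤ ‖((θ ^ i : K₁) : ℂ)‖ := by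
    have hc : ((θ ^ i : K₁) : ℂ) = ((θ : K₁) : ℂ) ^ i := by push_cast; rfl
    rw [hc, norm_pow]
    calc ((H : ℝ) + 2) ^ E ≤ ((C : ℝ) ^ (J + 3)) ^ E := by gcongr
      _ = ((C : ℝ) ^ E) ^ (J + 3) := by rw [← pow_mul, ← pow_mul, mul_comm]
      _ ≤ (‖((θ : K₁) : ℂ)‖ ^ q) ^ (J + 3) := by gcongr
      _ = ‖((θ : K₁) : ℂ)‖ ^ (q * (J + 3)) := by rw [← pow_mul]
      _ ≤ ‖((θ : K₁) : ℂ)‖ ^ i := by
          refine pow_le_pow_right₀ hθ1.le (le_trans ?_ hJi)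
          exact Nat.mul_le_mul_right _ (by omega)
  obtain ⟨S₀, hS₀, hwin⟩ := hE H K₁ (θ ^ i) (X ^ i) hfd le_rfl (hpt i).1 hHE (hpt i).2 υ w T hT hD
  have hgeo : ∀ t j j', -(γ t * ρ ^ j) = -(γ t * ρ ^ j') → j = j' := by
    intro t j j' h
    have h1 : ρ ^ j = ρ ^ j' := mul_left_cancel₀ (hγ0 t) (neg_injective h)
    have h2 : ‖ρ‖ ^ j = ‖ρ‖ ^ j' := by rw [← norm_pow, ← norm_pow, h1]
    exact pow_right_injective₀ hρpos hρ1.ne h2
  set g : Fin r × ℂ → ℕ := fun p => if h : ∃ j, -(γ p.1 * ρ ^ j) = p.2 then i + h.choose else 0 with hg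
  refine ⟨(Finset.univ ×ˢ S₀).image g, ?_, fun j hj hbad => ?_⟩
  · refine Finset.card_image_le.trans ?_
    rw [Finset.card_product, Finset.card_univ, Fintype.card_fin]
    exact Nat.mul_le_mul_left _ hS₀
  by_contra hcon
  obtain ⟨K, hKf, hKd, P, hPd, hPv, hPne⟩ := BadW.lift hbad
  have hjJ : j ≤ J := by
    have h1 : j + 3 ≤ i / (q + 1) := (Nat.le_div_iff_mul_le (by omega)).2 (by rw [mul_comm]; exact hj)
    omega
  refine hPne (hwin (fun t => -(γ t * ρ ^ j)) ?_ ?_ K hKf (hKd.trans (le_max_left _ _))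
    (fun t => Complex.log (1 - γ t * ρ ^ (i + j))) ?_ P hPd hPv)
  · intro t t' h
    have h1 : γ t * ρ ^ j = γ t' * ρ ^ j := neg_injective h
    exact hinj (mul_right_cancel₀ (pow_ne_zero _ hρ0) h1)
  · intro t
    refine ⟨fun hmem => hcon ?_, ?_, ?_⟩
    · refine Finset.mem_image.2 ⟨(t, -(γ t * ρ ^ j)), Finset.mem_product.2 ⟨Finset.mem_univ _, hmem⟩, ?_⟩
      have hex : ∃ j', -(γ t * ρ ^ j') = -(γ t * ρ ^ j) := ⟨j, rfl⟩
      rw [hg]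
      simp only
      rw [dif_pos hex, hgeo t _ _ hex.choose_spec]
    · exact neg_ne_zero.2 (mul_ne_zero (hγ0 t) (pow_ne_zero _ hρ0))
    · have h1 := hadm (-γK t) (Finset.mem_image_of_mem _ (Finset.mem_univ t)) j
      have h2 : ((-γK t * ρK ^ j : K₁) : ℂ) = -(γ t * ρ ^ j) := by
        push_cast
        rw [hγK, hρK]
        ring
      rw [h2] at h1
      refine adm_mono h1 (le_max_right _ _) ?_
      rw [hH]
      exact Nat.pow_le_pow_right (by omega) (by omega)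
  · intro t
    refine ⟨1, one_ne_zero, ?_⟩
    have h1 : 1 + -(γ t * ρ ^ j) / ((θ ^ i : K₁) : ℂ) = 1 - γ t * ρ ^ (i + j) := by
      have hc : ((θ ^ i : K₁) : ℂ) = (ρ ^ i)⁻¹ := by
        push_cast
        rw [hθv, inv_pow]
      rw [hc, div_inv_eq_mul, pow_add]
      ring
    rw [h1]
    simp

/-- **few indices** -/
theorem few_logs {ρ : ℂ} (hρ : IsAlgebraic ℚ ρ) (hρ0 : ρ ≠ 0) (hρ1 : ‖ρ‖ < 1) {r : ℕ} (γ : Fin r → ℂ)
    (hγ : ∀ t, IsAlgebraic ℚ (γ t)) (hγ0 : ∀ t, γ t ≠ 0) (hinj : Function.Injective γ) :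
    Few (fun n (t : Fin r) => Complex.log (1 - γ t * ρ ^ n)) := by
  intro d δ e τ A B
  obtain ⟨q, hq, hwin⟩ := window hρ hρ0 hρ1 γ hγ hγ0 hinj d δ e τ A B
  obtain ⟨C, hC, hcov⟩ := cover q (r * τ) hq
  exact ⟨C, hC, fun υ _ w T hT hD => hcov _ (hwin υ w T hT hD)⟩

/-- few indices for numbers which differ by a linear change and constants -/
theorem Few.linear {κ : Type} [Fintype κ] [DecidableEq κ] {r c : ℕ} {y : ℕ → Fin r → ℂ} (hy : Few y)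
    (x : ℕ → κ → ℂ) (M : κ → Fin r → ℚ) (hM : LinearIndependent ℚ M) (u : Fin c → ℂ)
    (hx : ∀ n s, x n s - ∑ t, ((M s t : ℚ) : ℂ) * y n t ∈ Submodule.span ℚ (insert 1 (Set.range u))) : Few x := by
  classical
  intro d δ e τ A B
  obtain ⟨C, hC, h⟩ := hy d δ (e + δ) (τ + c) A B
  refine ⟨C, hC, fun υ _ w T hT hD X hX => ?_⟩
  set w' : υ ⊕ Fin c → ℂ := Sum.elim w u with hw'
  have hD' : Dom A B w' (T.disjSum Finset.univ) := by
    refine hD.of w' _ (fun j hj => ⟨Sum.inl j, Finset.inl_mem_disjSum.2 hj, rfl⟩) ?_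
    rintro (j | j)
    · exact Or.inr ⟨j, rfl⟩
    · exact Or.inl (Finset.inr_mem_disjSum.2 (Finset.mem_univ _))
  obtain ⟨S, hS, hm⟩ := h (υ ⊕ Fin c) w' (T.disjSum Finset.univ)
    (by rw [Finset.card_disjSum, hT, Finset.card_univ, Fintype.card_fin]) hD' X hX
  refine ⟨S, hS, fun n h1 h2 hbad => hm n h1 h2 ?_⟩
  have hbad' : BadW d δ e w' (x n) := hbad.mono fun j => Or.inr ⟨Sum.inl j, rfl⟩
  refine BadW.linear M hM (fun s => ?_) hbad'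
  refine Submodule.span_mono (Set.insert_subset_insert ?_) (hx n s)
  rintro _ ⟨j, rfl⟩
  exact ⟨Sum.inr j, rfl⟩

end Pool.Agent.X120.Rec
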