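import Pool.Agent.X120.Rec.Core

/-!
# The case `|ρ| > 1`
-/

set_option autoImplicit false

open Module Polynomial

namespace Pool.Agent.X120.Rec

open Pool.Agent.Y916.Om

theorem reverse_reverse' (f : ℂ[X]) (h0 : f.eval 0 ≠ 0) : f.reverse.reverse = f := by
  have h1 : f.coeff 0 ≠ 0 := by rwa [coeff_zero_eq_eval_zero]
  have h2 : f.reverse.natDegree = f.natDegree := by
    rw [reverse_natDegree, natTrailingDegree_eq_zero.2 (Or.inr h1), Nat.sub_zero]
  ext n
  rw [coeff_reverse, h2, coeff_reverse, revAt_invol]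

theorem reverse_pow' (f : ℂ[X]) (n : ℕ) : (f ^ n).reverse = f.reverse ^ n := by
  induction n with
  | zero => rw [pow_zero, pow_zero, ← C_1, reverse, natDegree_C, reflect_C, pow_zero, mul_one]
  | succ n ih => rw [pow_succ, reverse_mul_of_domain, ih, pow_succ]

theorem reverse_prod' {ι : Type} (s : Finset ι) (f : ι → ℂ[X]) : (∏ i ∈ s, f i).reverse = ∏ i ∈ s, (f i).reverse := by
  classical
  induction s using Finset.induction_on with
  | empty => rw [Finset.prod_empty, Finset.prod_empty, ← C_1, reverse, natDegree_C, reflect_C, pow_zero, mul_one]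
  | insert a s ha ih => rw [Finset.prod_insert ha, Finset.prod_insert ha, reverse_mul_of_domain, ih]

theorem MulIndep.reverse {r : ℕ} {f : Fin r → ℂ[X]} (h0 : ∀ s, (f s).eval 0 ≠ 0) (h : MulIndep f) :
    MulIndep fun s => (f s).reverse := by
  intro a b c hab
  have key : ∀ a : Fin r → ℕ, (∏ s, (f s).reverse ^ a s).reverse = ∏ s, f s ^ a s := by
    intro a
    rw [reverse_prod']
    exact Finset.prod_congr rfl fun s _ => by rw [reverse_pow', reverse_reverse' _ (h0 s)]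
  refine h a b c ?_
  rw [← key a, ← key b, hab, reverse_mul_of_domain]
  congr 1
  rw [Polynomial.reverse, natDegree_C, reflect_C, pow_zero, mul_one]

theorem eval_reverse' (f : ℂ[X]) {x : ℂ} (hx : x ≠ 0) : f.eval x = x ^ f.natDegree * f.reverse.eval x⁻¹ := by
  have := invertibleOfNonzero hx
  have h1 := eval₂_reverse_mul_pow (RingHom.id ℂ) x f
  rw [invOf_eq_inv] at h1
  rw [← eval₂_id, ← h1, ← eval₂_id]
  ring

/-- **the theorem** -/
theorem full {k r : ℕ} (f : Fin (k + 1) → Fin r → ℂ[X])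
    (hf : ∀ i s m, IsAlgebraic ℚ ((f i s).coeff m)) (hf0 : ∀ i s, (f i s).eval 0 ≠ 0) (hind : ∀ i, MulIndep (f i))
    (ρ : Fin (k + 1) → ℂ) (hρ : ∀ i, IsAlgebraic ℚ (ρ i)) (hρ0 : ∀ i, ρ i ≠ 0) (hρ1 : ∀ i, ‖ρ i‖ ≠ 1)
    (κ : Fin (k + 1) → Fin r → ℂ) (hκ0 : ∀ i s, κ i s ≠ 0) (δ d D : ℕ) :
    ∃ C : ℝ, ∀ V : Submodule ℚ ℂ, Module.Finite ℚ V → finrank ℚ V ≤ D → ∀ T : ℕ, 2 ≤ T →
      ∃ S : Finset (Fin (k + 1) → ℕ), (S.card : ℝ) ≤ C * (T : ℝ) ^ k * Real.log T ∧
      ∀ n : Fin (k + 1) → ℕ, (∀ i, 1 ≤ n i ∧ n i ≤ T) → ∀ l : Fin (k + 1) × Fin r → ℂ,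
        (∀ p, Complex.exp (l p) = κ p.1 p.2 ^ n p.1 * (f p.1 p.2).eval (ρ p.1 ^ n p.1)) → Related δ d V l → n ∈ S := by
  classical
  obtain ⟨C, hC⟩ := core (fun i s => if ‖ρ i‖ < 1 then f i s else (f i s).reverse)
    (fun i s m => by
      split_ifs
      · exact hf i s m
      · rw [coeff_reverse]
        exact hf i s _)
    (fun i s => by
      split_ifs
      · exact hf0 i s
      · rw [← coeff_zero_eq_eval_zero, coeff_zero_reverse]
        refine leadingCoeff_ne_zero.2 fun h => hf0 i s ?_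
        rw [h, eval_zero])
    (fun i => by
      by_cases h : ‖ρ i‖ < 1
      · simp only [if_pos h]
        exact hind i
      · simp only [if_neg h]
        exact (hind i).reverse (hf0 i))
    (fun i => if ‖ρ i‖ < 1 then ρ i else (ρ i)⁻¹)
    (fun i => by
      split_ifs
      · exact hρ i
      · exact (hρ i).inv)
    (fun i => by
      split_ifs
      · exact hρ0 i
      · exact inv_ne_zero (hρ0 i))
    (fun i => by
      split_ifs with h
      · exact h
      · rw [norm_inv]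
        exact inv_lt_one_of_one_lt₀ (lt_of_le_of_ne (not_lt.1 h) (Ne.symm (hρ1 i))))
    (fun i s => if ‖ρ i‖ < 1 then κ i s else κ i s * ρ i ^ (f i s).natDegree)
    (fun i s => by
      split_ifs
      · exact hκ0 i s
      · exact mul_ne_zero (hκ0 i s) (pow_ne_zero _ (hρ0 i)))
    δ d D
  refine ⟨C, fun V hV hVD T hT => ?_⟩
  obtain ⟨S, hS, hm⟩ := hC V hV hVD T hT
  refine ⟨S, hS, fun n hn l hl hrel => hm n hn l (fun p => ?_) hrel⟩
  rw [hl p]
  by_cases h : ‖ρ p.1‖ < 1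
  · simp only [if_pos h]
  · simp only [if_neg h]
    rw [eval_reverse' _ (pow_ne_zero _ (hρ0 p.1)), mul_pow, inv_pow, ← pow_mul, ← pow_mul]
    rw [mul_comm (n p.1) _]
    ring

end Pool.Agent.X120.Rec
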