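import Mathlib

/-!
# Multiplicatively independent polynomials and their zeros
-/

set_option autoImplicit false

open Polynomial

namespace Pool.Agent.X120.Rec

/-- multiplicative independence modulo constants -/
def MulIndep {r : ℕ} (f : Fin r → ℂ[X]) : Prop :=
  ∀ (a b : Fin r → ℕ) (c : ℂ), ∏ s, f s ^ a s = C c * ∏ s, f s ^ b s → a = b

/-- a polynomial in terms of its zeros -/
theorem eval_fac (f : ℂ[X]) (h0 : f.eval 0 ≠ 0) (Z : Finset ℂ) (hZ : ∀ z, f.IsRoot z → z ∈ Z) (x : ℂ) :
    f.eval x = f.eval 0 * ∏ z ∈ Z, (1 - x / z) ^ f.rootMultiplicity z := by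
  classical
  have hf : f ≠ 0 := by
    rintro rfl
    exact h0 eval_zero
  have hs : f.Splits := IsAlgClosed.splits f
  have hev : ∀ y : ℂ, f.eval y = f.leadingCoeff * ∏ z ∈ Z, (y - z) ^ f.rootMultiplicity z := by
    intro y
    rw [hs.eval_eq_prod_roots y, Finset.prod_multiset_map_count]
    congr 1
    have h1 : f.roots.toFinset ⊆ Z := fun z hz => hZ z ((mem_roots hf).1 (Multiset.mem_toFinset.1 hz))
    rw [← Finset.prod_subset h1]
    · exact Finset.prod_congr rfl fun z _ => by rw [count_roots]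
    · intro z _ hz
      have h2 : f.rootMultiplicity z = 0 := by
        rw [← count_roots]
        exact Multiset.count_eq_zero.2 fun h => hz (Multiset.mem_toFinset.2 h)
      rw [h2, pow_zero]
  rw [hev x, hev 0, mul_assoc, ← Finset.prod_mul_distrib]
  congr 1
  refine Finset.prod_congr rfl fun z _ => ?_
  by_cases hz : z = 0
  · have h2 : f.rootMultiplicity z = 0 := by
      rw [hz]
      exact rootMultiplicity_eq_zero h0
    rw [h2, pow_zero, pow_zero, pow_zero, mul_one]
  · rw [← mul_pow]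
    congr 1
    field_simp
    ring

/-- polynomials with the same zeros -/
theorem eq_of_mult {P Q : ℂ[X]} (hQ : Q ≠ 0) (h : ∀ z, P.rootMultiplicity z = Q.rootMultiplicity z) :
    ∃ c : ℂ, P = C c * Q := by
  classical
  have hr : P.roots = Q.roots := by
    ext z
    rw [count_roots, count_roots, h z]
  refine ⟨P.leadingCoeff / Q.leadingCoeff, ?_⟩
  have h1 := (IsAlgClosed.splits P).eq_prod_roots
  have h2 := (IsAlgClosed.splits Q).eq_prod_roots
  have hq : Q.leadingCoeff ≠ 0 := leadingCoeff_ne_zero.2 hQ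
  calc P = C P.leadingCoeff * (P.roots.map fun a => X - C a).prod := h1
    _ = C P.leadingCoeff * (Q.roots.map fun a => X - C a).prod := by rw [hr]
    _ = C (P.leadingCoeff / Q.leadingCoeff) * (C Q.leadingCoeff * (Q.roots.map fun a => X - C a).prod) := by
        rw [← mul_assoc, ← C_mul, div_mul_cancel₀ _ hq]
    _ = C (P.leadingCoeff / Q.leadingCoeff) * Q := by rw [← h2]

theorem mult_prod {r : ℕ} (f : Fin r → ℂ[X]) (hf : ∀ s, f s ≠ 0) (a : Fin r → ℕ) (z : ℂ) :
    (∏ s, f s ^ a s).rootMultiplicity z = ∑ s, a s * (f s).rootMultiplicity z := by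
  classical
  have h0 : ∏ s, f s ^ a s ≠ 0 := Finset.prod_ne_zero_iff.2 fun s _ => pow_ne_zero _ (hf s)
  rw [← count_roots, roots_prod _ _ h0, Multiset.count_bind, ← Finset.sum_eq_multiset_sum]
  refine Finset.sum_congr rfl fun s _ => ?_
  rw [roots_pow, Multiset.count_nsmul, count_roots]

/-- the matrix of the multiplicities has independent rows -/
theorem rows_indep {r : ℕ} (f : Fin r → ℂ[X]) (hf : ∀ s, f s ≠ 0) (hi : MulIndep f) {m : ℕ} (ζ : Fin m → ℂ)
    (hζ : ∀ s z, (f s).IsRoot z → ∃ t, ζ t = z) :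
    LinearIndependent ℚ (fun (s : Fin r) (t : Fin m) => (((f s).rootMultiplicity (ζ t) : ℕ) : ℚ)) := by
  classical
  rw [Fintype.linearIndependent_iff]
  intro g hg
  -- clear denominators
  set N : ℕ := ∏ s, (g s).den with hN
  have hN0 : (N : ℚ) ≠ 0 := by
    have : N ≠ 0 := Finset.prod_ne_zero_iff.2 fun s _ => (g s).den_nz
    exact_mod_cast this
  have hint : ∀ s, ∃ z : ℤ, (N : ℚ) * g s = z := by
    intro s
    refine ⟨(∏ s' ∈ Finset.univ.erase s, ((g s').den : ℤ)) * (g s).num, ?_⟩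
    rw [hN, ← Finset.mul_prod_erase _ _ (Finset.mem_univ s)]
    push_cast
    have h1 : ((g s).den : ℚ) * g s = (g s).num := Rat.den_mul_eq_num _
    calc ((g s).den : ℚ) * (∏ s' ∈ Finset.univ.erase s, ((g s').den : ℚ)) * g s
        = (∏ s' ∈ Finset.univ.erase s, ((g s').den : ℚ)) * (((g s).den : ℚ) * g s) := by ring
      _ = _ := by rw [h1]
  choose z hz using hint
  have hsum : ∀ t, ∑ s, z s * ((f s).rootMultiplicity (ζ t) : ℤ) = 0 := by
    intro t
    have h1 := congrFun hg t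
    rw [Finset.sum_apply] at h1
    simp only [Pi.smul_apply, smul_eq_mul, Pi.zero_apply] at h1
    have h2 : (((∑ s, z s * ((f s).rootMultiplicity (ζ t) : ℤ) : ℤ)) : ℚ) = 0 := by
      push_cast
      calc ∑ s, (z s : ℚ) * ((f s).rootMultiplicity (ζ t) : ℚ)
          = ∑ s, (N : ℚ) * (g s * ((f s).rootMultiplicity (ζ t) : ℚ)) :=
            Finset.sum_congr rfl fun s _ => by rw [← hz s]; ring
        _ = N * ∑ s, g s * ((f s).rootMultiplicity (ζ t) : ℚ) := by rw [Finset.mul_sum]
        _ = 0 := by rw [h1, mul_zero]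
    exact_mod_cast h2
  set a : Fin r → ℕ := fun s => (z s).toNat with ha
  set b : Fin r → ℕ := fun s => (-z s).toNat with hb
  have hab : ∀ s, (z s : ℤ) = a s - b s := by
    intro s
    simp only [ha, hb]
    omega
  have hQ : ∏ s, f s ^ b s ≠ 0 := Finset.prod_ne_zero_iff.2 fun s _ => pow_ne_zero _ (hf s)
  obtain ⟨c, hc⟩ := eq_of_mult (P := ∏ s, f s ^ a s) hQ (fun x => by
    rw [mult_prod f hf, mult_prod f hf]
    by_cases hx : ∃ s, (f s).IsRoot x
    · obtain ⟨s, hs⟩ := hx
      obtain ⟨t, rfl⟩ := hζ s x hs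
      have h1 := hsum t
      have h2 : ∑ s, z s * ((f s).rootMultiplicity (ζ t) : ℤ) =
          ∑ s, (a s : ℤ) * ((f s).rootMultiplicity (ζ t) : ℤ) - ∑ s, (b s : ℤ) * ((f s).rootMultiplicity (ζ t) : ℤ) := by
        rw [← Finset.sum_sub_distrib]
        exact Finset.sum_congr rfl fun s _ => by rw [hab s]; ring
      rw [h2] at h1
      have h3 : ∑ s, (a s : ℤ) * ((f s).rootMultiplicity (ζ t) : ℤ) = ∑ s, (b s : ℤ) * ((f s).rootMultiplicity (ζ t) : ℤ) := by
        linarith
      exact_mod_cast h3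
    · push Not at hx
      rw [Finset.sum_eq_zero fun s _ => by rw [rootMultiplicity_eq_zero (hx s), mul_zero],
        Finset.sum_eq_zero fun s _ => by rw [rootMultiplicity_eq_zero (hx s), mul_zero]])
  have h1 := hi a b c hc
  intro s
  have h2 : z s = 0 := by
    rw [hab s, h1, sub_self]
  have h3 := hz s
  rw [h2, Int.cast_zero] at h3
  exact (mul_eq_zero.1 h3).resolve_left hN0

/-- the zeros of a polynomial with algebraic coefficients are algebraic -/
theorem root_alg {f : ℂ[X]} (hf : f ≠ 0) (ha : ∀ i, IsAlgebraic ℚ (f.coeff i)) {z : ℂ} (hz : f.IsRoot z) :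
    IsAlgebraic ℚ z := by
  set K : IntermediateField ℚ ℂ := algebraicClosure ℚ ℂ with hK
  have : Algebra.IsAlgebraic ℚ K := algebraicClosure.isAlgebraic ℚ ℂ
  have hmem : ∀ i, f.coeff i ∈ (algebraMap K ℂ).range := fun i => ⟨⟨f.coeff i, (mem_algebraicClosure_iff).2 (ha i)⟩, rfl⟩
  obtain ⟨g, hg⟩ := (mem_lifts f).1 ((lifts_iff_coeff_lifts f).2 fun i => by
    obtain ⟨y, hy⟩ := hmem i
    exact ⟨y, hy⟩)
  have hg0 : g ≠ 0 := by
    rintro rfl
    apply hf
    rw [← hg, Polynomial.map_zero]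
  have h1 : IsAlgebraic K z := ⟨g, hg0, by
    rw [aeval_def, ← eval_map, hg]
    exact hz⟩
  exact IsAlgebraic.restrictScalars ℚ h1

end Pool.Agent.X120.Rec
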