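import Pool.Agent.X120.Rec.Win
import Pool.Agent.X120.Rec.Pol

/-!
# Tuples of terms of the sequences `κ ^ n f(ρ ^ n)`
-/

set_option autoImplicit false

open Module Polynomial

namespace Pool.Agent.X120.Rec

open Pool.Agent.Y916.Om

/-- the numbers `l` satisfy a nontrivial relation of degree at most `δ` whose coefficients are linear combinations of
elements of `V` over a number field of degree at most `d` -/
def Related (δ d : ℕ) (V : Submodule ℚ ℂ) {ι : Type} (l : ι → ℂ) : Prop :=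
  ∃ L : IntermediateField ℚ ℂ, FiniteDimensional ℚ L ∧ finrank ℚ L ≤ d ∧
    ∃ P : MvPolynomial ι ℂ, P ≠ 0 ∧ P.totalDegree ≤ δ ∧ (∀ s, P.coeff s ∈ Submodule.span L (V : Set ℂ)) ∧
      MvPolynomial.aeval l P = 0

/-- the comparison of the logarithms -/
theorem log_diff {m : ℕ} (ζ : Fin m → ℂ) (hζi : Function.Injective ζ) (f : ℂ[X]) (h0 : f.eval 0 ≠ 0)
    (hζ : ∀ z, f.IsRoot z → ∃ t, ζ t = z) (κ y l : ℂ) (hκ : κ ≠ 0) (n : ℕ)
    (hl : Complex.exp l = κ ^ n * f.eval y) :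
    ∃ z : ℤ, l - ∑ t, ((f.rootMultiplicity (ζ t) : ℕ) : ℂ) * Complex.log (1 - (ζ t)⁻¹ * y) =
      z * (2 * Real.pi * Complex.I) + n * Complex.log κ + Complex.log (f.eval 0) := by
  classical
  have hfac := eval_fac f h0 (Finset.univ.image ζ) (fun z hz => by
    obtain ⟨t, ht⟩ := hζ z hz
    exact Finset.mem_image.2 ⟨t, Finset.mem_univ _, ht⟩) y
  rw [Finset.prod_image (fun a _ b _ h => hζi h)] at hfac
  have hfy : f.eval y ≠ 0 := by
    intro h
    rw [h, mul_zero] at hl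
    exact Complex.exp_ne_zero _ hl
  have hne : ∀ t, (1 - y / ζ t) ^ f.rootMultiplicity (ζ t) ≠ 0 := by
    intro t ht
    apply hfy
    rw [hfac, Finset.prod_eq_zero (Finset.mem_univ t) ht, mul_zero]
  have hexp : Complex.exp (∑ t, ((f.rootMultiplicity (ζ t) : ℕ) : ℂ) * Complex.log (1 - (ζ t)⁻¹ * y)) =
      ∏ t, (1 - y / ζ t) ^ f.rootMultiplicity (ζ t) := by
    rw [Complex.exp_sum]
    refine Finset.prod_congr rfl fun t _ => ?_
    rw [Complex.exp_nat_mul]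
    by_cases hm : f.rootMultiplicity (ζ t) = 0
    · rw [hm, pow_zero, pow_zero]
    · have h1 : (1 - y / ζ t) ≠ 0 := fun h => hne t (by rw [h, zero_pow hm])
      have h2 : (1 - (ζ t)⁻¹ * y) = 1 - y / ζ t := by ring
      rw [h2, Complex.exp_log h1]
  set s := ∑ t, ((f.rootMultiplicity (ζ t) : ℕ) : ℂ) * Complex.log (1 - (ζ t)⁻¹ * y) with hs
  have h1 : Complex.exp (l - s - (n * Complex.log κ + Complex.log (f.eval 0))) = 1 := by
    rw [Complex.exp_sub, Complex.exp_sub, hl, hexp, Complex.exp_add, Complex.exp_nat_mul, Complex.exp_log hκ,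
      Complex.exp_log h0, hfac]
    have hp : ∏ t, (1 - y / ζ t) ^ f.rootMultiplicity (ζ t) ≠ 0 := Finset.prod_ne_zero_iff.2 fun t _ => hne t
    field_simp
  obtain ⟨z, hz⟩ := Complex.exp_eq_one_iff.1 h1
  refine ⟨z, ?_⟩
  linear_combination hz

/-- the theorem for `|ρ| < 1` -/
theorem core {k r : ℕ} (f : Fin (k + 1) → Fin r → ℂ[X])
    (hf : ∀ i s m, IsAlgebraic ℚ ((f i s).coeff m)) (hf0 : ∀ i s, (f i s).eval 0 ≠ 0) (hind : ∀ i, MulIndep (f i))
    (ρ : Fin (k + 1) → ℂ) (hρ : ∀ i, IsAlgebraic ℚ (ρ i)) (hρ0 : ∀ i, ρ i ≠ 0) (hρ1 : ∀ i, ‖ρ i‖ < 1)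
    (κ : Fin (k + 1) → Fin r → ℂ) (hκ0 : ∀ i s, κ i s ≠ 0) (δ d D : ℕ) :
    ∃ C : ℝ, ∀ V : Submodule ℚ ℂ, Module.Finite ℚ V → finrank ℚ V ≤ D → ∀ T : ℕ, 2 ≤ T →
      ∃ S : Finset (Fin (k + 1) → ℕ), (S.card : ℝ) ≤ C * (T : ℝ) ^ k * Real.log T ∧
      ∀ n : Fin (k + 1) → ℕ, (∀ i, 1 ≤ n i ∧ n i ≤ T) → ∀ l : Fin (k + 1) × Fin r → ℂ,
        (∀ p, Complex.exp (l p) = κ p.1 p.2 ^ n p.1 * (f p.1 p.2).eval (ρ p.1 ^ n p.1)) → Related δ d V l → n ∈ S := by
  classical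
  have hfne : ∀ i s, f i s ≠ 0 := by
    rintro i s h
    apply hf0 i s
    rw [h, eval_zero]
  -- the zeros
  set Z : Fin (k + 1) → Finset ℂ := fun i => Finset.univ.biUnion fun s => (f i s).roots.toFinset with hZ
  set m : Fin (k + 1) → ℕ := fun i => (Z i).card with hm
  set ζ : ∀ i, Fin (m i) → ℂ := fun i t => (((Z i).equivFin.symm t : Z i) : ℂ) with hζ
  have hζi : ∀ i, Function.Injective (ζ i) := fun i => Subtype.val_injective.comp (Z i).equivFin.symm.injective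
  have hζs : ∀ i s z, (f i s).IsRoot z → ∃ t, ζ i t = z := by
    intro i s z hz
    have h1 : z ∈ Z i := Finset.mem_biUnion.2 ⟨s, Finset.mem_univ _, Multiset.mem_toFinset.2 ((mem_roots (hfne i s)).2 hz)⟩
    exact ⟨(Z i).equivFin ⟨z, h1⟩, by simp [hζ]⟩
  have hζr : ∀ i t, ∃ s, (f i s).IsRoot (ζ i t) := by
    intro i t
    obtain ⟨s, -, hs⟩ := Finset.mem_biUnion.1 ((Z i).equivFin.symm t).2
    exact ⟨s, (mem_roots (hfne i s)).1 (Multiset.mem_toFinset.1 hs)⟩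
  have hζ0 : ∀ i t, ζ i t ≠ 0 := by
    intro i t h
    obtain ⟨s, hs⟩ := hζr i t
    rw [h] at hs
    exact hf0 i s hs
  have hζa : ∀ i t, IsAlgebraic ℚ (ζ i t) := by
    intro i t
    obtain ⟨s, hs⟩ := hζr i t
    exact root_alg (hfne i s) (hf i s) hs
  -- the numbers
  set M : ∀ i, Fin r → Fin (m i) → ℚ := fun i s t => (((f i s).rootMultiplicity (ζ i t) : ℕ) : ℚ) with hM
  set y : ∀ i, ℕ → Fin (m i) → ℂ := fun i n t => Complex.log (1 - (ζ i t)⁻¹ * ρ i ^ n) with hy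
  set x : Fin (k + 1) → ℕ → Fin r → ℂ := fun i n s => ∑ t, ((M i s t : ℚ) : ℂ) * y i n t with hx
  have hfew : ∀ i, Few (x i) := by
    intro i
    have h1 := few_logs (hρ i) (hρ0 i) (hρ1 i) (fun t => (ζ i t)⁻¹) (fun t => (hζa i t).inv)
      (fun t => inv_ne_zero (hζ0 i t)) (fun t t' h => hζi i (inv_injective h))
    refine Few.linear (c := 0) h1 (x i) (M i) (rows_indep (f i) (hfne i) (hind i) (ζ i) (hζs i)) (fun j => j.elim0) ?_
    intro n s
    rw [hx]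
    simp only [hy, sub_self]
    exact Submodule.zero_mem _
  set υ₀ : Type := Option ((Fin (k + 1) × Fin r) ⊕ (Fin (k + 1) × Fin r)) with hυ₀
  obtain ⟨C, hC, htup⟩ := tuples (k + 1) x hfew d δ (1 + δ) (D + Fintype.card υ₀) 1 1
  refine ⟨C, fun V hV hVD T hT => ?_⟩
  obtain ⟨w, c, hwc⟩ := coords V hV D hVD
  set u₀ : υ₀ → ℂ := fun o => o.elim (2 * Real.pi * Complex.I)
    (Sum.elim (fun p => Complex.log (κ p.1 p.2)) fun p => Complex.log ((f p.1 p.2).eval 0)) with hu₀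
  set w' : Fin D ⊕ υ₀ → ℂ := Sum.elim w u₀ with hw'
  obtain ⟨S, hS, hmem⟩ := htup (Fin D ⊕ υ₀) w' Finset.univ (by
    rw [Finset.card_univ, Fintype.card_sum, Fintype.card_fin]) (Dom.univ w') T hT
  refine ⟨S, ?_, ?_⟩
  · have hT0 : (0 : ℝ) < T := by exact_mod_cast (by omega : 0 < T)
    have h1 : (S.card : ℝ) * T ≤ (C * (T : ℝ) ^ k * Real.log T) * T := hS.trans (le_of_eq (by ring))
    exact le_of_mul_le_mul_right h1 hT0
  intro n hn l hl hrel
  refine hmem n hn ?_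
  -- the relation in terms of `w'`
  have hb1 : BadW d δ 1 w' l := by
    obtain ⟨L, hL, hLd, P, hP0, hPd, hPc, hPv⟩ := hrel
    refine ⟨L, hL, hLd, P, hP0, hPd, fun s => ?_, hPv⟩
    rw [pow_one]
    have hle : Submodule.span L (V : Set ℂ) ≤ Submodule.span L (insert (1 : ℂ) (Set.range w')) := by
      refine Submodule.span_le.2 fun v hv => ?_
      rw [SetLike.mem_coe, hwc v hv]
      refine Submodule.sum_mem _ fun j _ => ?_
      have h2 : ((c v j : ℚ) : ℂ) * w j = (algebraMap ℚ L (c v j)) • w j := by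
        rw [Algebra.smul_def]
        simp
      rw [h2]
      exact Submodule.smul_mem _ _ (Submodule.subset_span (Set.mem_insert_of_mem _ ⟨Sum.inl j, rfl⟩))
    exact hle (hPc s)
  have hlin : LinearIndependent ℚ (fun p q : Fin (k + 1) × Fin r => if p = q then (1 : ℚ) else 0) := by
    have h1 := (Pi.basisFun ℚ (Fin (k + 1) × Fin r)).linearIndependent
    have h2 : (fun p q : Fin (k + 1) × Fin r => if p = q then (1 : ℚ) else 0) =
        ⇑(Pi.basisFun ℚ (Fin (k + 1) × Fin r)) := by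
      funext p q
      rw [Pi.basisFun_apply, Pi.single_apply]
      simp only [eq_comm]
    rw [h2]
    exact h1
  refine BadW.linear _ hlin (fun p => ?_) hb1
  have h3 : ∑ t : Fin (k + 1) × Fin r, (((if p = t then (1 : ℚ) else 0 : ℚ)) : ℂ) * x t.1 (n t.1) t.2 =
      x p.1 (n p.1) p.2 := by
    rw [Finset.sum_eq_single p]
    · simp
    · intro q _ hq
      rw [if_neg (Ne.symm hq)]
      simp
    · intro h
      exact absurd (Finset.mem_univ _) h
  rw [h3]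
  obtain ⟨z, hz⟩ := log_diff (ζ p.1) (hζi p.1) (f p.1 p.2) (hf0 _ _) (hζs p.1 p.2) (κ p.1 p.2) (ρ p.1 ^ n p.1) (l p)
    (hκ0 _ _) (n p.1) (hl p)
  have h4 : l p - x p.1 (n p.1) p.2 = (z : ℚ) • u₀ none + (n p.1 : ℚ) • u₀ (some (Sum.inl p)) +
      (1 : ℚ) • u₀ (some (Sum.inr p)) := by
    rw [Rat.smul_def, Rat.smul_def, one_smul]
    simp only [hu₀, Option.elim_none, Option.elim_some, Sum.elim_inl, Sum.elim_inr]
    push_cast
    rw [← hz, hx]
    simp only [hM, hy]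
    push_cast
    rfl
  rw [h4]
  have hin : ∀ o, u₀ o ∈ Submodule.span ℚ (insert (1 : ℂ) (Set.range w')) := fun o =>
    Submodule.subset_span (Set.mem_insert_of_mem _ ⟨Sum.inr o, rfl⟩)
  exact Submodule.add_mem _ (Submodule.add_mem _ (Submodule.smul_mem _ _ (hin _)) (Submodule.smul_mem _ _ (hin _)))
    (Submodule.smul_mem _ _ (hin _))

end Pool.Agent.X120.Rec
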