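import Pool.Agent.X120.Rec.Tup

/-!
# Linear changes of variables
-/

set_option autoImplicit false

open Module

namespace Pool.Agent.X120.Rec

open Pool.Agent.Y916.Om

section Lin

variable {κ κ' : Type} [Fintype κ] [Fintype κ'] [DecidableEq κ] [DecidableEq κ']

/-- the substitution `X_s ↦ ∑_t M_st X_t + v_s` -/
noncomputable def sub (M : κ → κ' → ℚ) (v : κ → ℂ) (s : κ) : MvPolynomial κ' ℂ :=
  ∑ t, MvPolynomial.C ((M s t : ℚ) : ℂ) * MvPolynomial.X t + MvPolynomial.C (v s)

/-- a right inverse of a matrix with independent rows -/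
theorem exists_rinv (M : κ → κ' → ℚ) (hM : LinearIndependent ℚ M) :
    ∃ N : κ' → κ → ℚ, ∀ s s', ∑ t, M s t * N t s' = if s = s' then 1 else 0 := by
  set f : (κ → ℚ) →ₗ[ℚ] (κ' → ℚ) := Fintype.linearCombination ℚ M with hf
  have hinj : Function.Injective f := linearIndependent_iff_injective_fintypeLinearCombination.1 hM
  obtain ⟨g, hg⟩ := f.exists_leftInverse_of_injective (LinearMap.ker_eq_bot.2 hinj)
  refine ⟨fun t s' => g (Pi.single t 1) s', fun s s' => ?_⟩
  have h1 : f (Pi.single s 1) = M s := by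
    rw [hf, Fintype.linearCombination_apply_single, one_smul]
  have h2 : g (M s) = Pi.single s 1 := by
    rw [← h1]
    exact DFunLike.congr_fun hg _
  have h3 : M s = ∑ t, M s t • (Pi.single t 1 : κ' → ℚ) := by
    funext t
    rw [Finset.sum_apply]
    simp [Pi.single_apply]
  have h4 : g (M s) s' = ∑ t, M s t * g (Pi.single t 1) s' := by
    conv_lhs => rw [h3]
    rw [map_sum, Finset.sum_apply]
    simp
  rw [← h4, h2, Pi.single_apply]
  simp only [eq_comm]

theorem sub_inj (M : κ → κ' → ℚ) (hM : LinearIndependent ℚ M) (v : κ → ℂ) :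
    Function.Injective (MvPolynomial.aeval (sub M v) : MvPolynomial κ ℂ →ₐ[ℂ] MvPolynomial κ' ℂ) := by
  obtain ⟨N, hN⟩ := exists_rinv M hM
  have h : (MvPolynomial.aeval (fun t => ∑ s, MvPolynomial.C ((N t s : ℚ) : ℂ) *
      (MvPolynomial.X s - MvPolynomial.C (v s))) : MvPolynomial κ' ℂ →ₐ[ℂ] MvPolynomial κ ℂ).comp
      (MvPolynomial.aeval (sub M v) : MvPolynomial κ ℂ →ₐ[ℂ] MvPolynomial κ' ℂ) = AlgHom.id ℂ _ := by
    refine MvPolynomial.algHom_ext fun s => ?_
    rw [AlgHom.comp_apply, MvPolynomial.aeval_X, AlgHom.id_apply, sub, map_add, map_sum, MvPolynomial.aeval_C,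
      MvPolynomial.algebraMap_eq]
    have h1 : ∀ t, MvPolynomial.aeval (fun t => ∑ s, MvPolynomial.C ((N t s : ℚ) : ℂ) *
        (MvPolynomial.X s - MvPolynomial.C (v s) : MvPolynomial κ ℂ))
        (MvPolynomial.C ((M s t : ℚ) : ℂ) * MvPolynomial.X t : MvPolynomial κ' ℂ) =
        ∑ s', MvPolynomial.C ((M s t * N t s' : ℚ) : ℂ) * (MvPolynomial.X s' - MvPolynomial.C (v s')) := by
      intro t
      rw [map_mul, MvPolynomial.aeval_C, MvPolynomial.aeval_X, MvPolynomial.algebraMap_eq, Finset.mul_sum]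
      refine Finset.sum_congr rfl fun s' _ => ?_
      push_cast
      rw [MvPolynomial.C_mul]
      ring
    rw [Finset.sum_congr rfl fun t _ => h1 t, Finset.sum_comm]
    have h2 : ∀ s', ∑ t, MvPolynomial.C ((M s t * N t s' : ℚ) : ℂ) *
        (MvPolynomial.X s' - MvPolynomial.C (v s') : MvPolynomial κ ℂ) =
        MvPolynomial.C ((if s = s' then 1 else 0 : ℚ) : ℂ) * (MvPolynomial.X s' - MvPolynomial.C (v s')) := by
      intro s'
      rw [← Finset.sum_mul, ← hN s s']
      congr 1
      rw [Rat.cast_sum, map_sum]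
    rw [Finset.sum_congr rfl fun s' _ => h2 s']
    rw [Finset.sum_eq_single s]
    · simp
    · intro s' _ hs'
      rw [if_neg (Ne.symm hs')]
      simp
    · intro h
      exact absurd (Finset.mem_univ s) h
  intro x y hxy
  have h1 := DFunLike.congr_fun h x
  have h2 := DFunLike.congr_fun h y
  rw [AlgHom.comp_apply, AlgHom.id_apply] at h1 h2
  rw [← h1, ← h2, hxy]

/-- linear changes of the numbers -/
theorem BadW.linear {d δ e : ℕ} {υ : Type} {w : υ → ℂ} {x : κ → ℂ} {y : κ' → ℂ} (M : κ → κ' → ℚ)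
    (hM : LinearIndependent ℚ M)
    (hx : ∀ s, x s - ∑ t, ((M s t : ℚ) : ℂ) * y t ∈ Submodule.span ℚ (insert 1 (Set.range w)))
    (h : BadW d δ e w x) : BadW d δ (e + δ) w y := by
  classical
  obtain ⟨K, hK, hd, P, hP0, hPd, hPc, hPv⟩ := h
  set V : Submodule K ℂ := Submodule.span K (insert 1 (Set.range w)) with hV
  have h1 : (1 : ℂ) ∈ V := Submodule.subset_span (Set.mem_insert _ _)
  set v : κ → ℂ := fun s => x s - ∑ t, ((M s t : ℚ) : ℂ) * y t with hv
  have hle : Submodule.span ℚ (insert (1 : ℂ) (Set.range w)) ≤ V.restrictScalars ℚ :=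
    Submodule.span_le.2 fun z hz => Submodule.subset_span hz
  have hLD : ∀ s, DC 1 (V.restrictScalars ℚ) (sub M v s) := by
    intro s
    refine ⟨?_, fun u => ?_⟩
    · refine (MvPolynomial.totalDegree_add _ _).trans (max_le ?_ ?_)
      · refine MvPolynomial.totalDegree_finsetSum_le fun t _ => ?_
        refine (MvPolynomial.totalDegree_mul _ _).trans ?_
        rw [MvPolynomial.totalDegree_C, MvPolynomial.totalDegree_X]
      · rw [MvPolynomial.totalDegree_C]
        exact Nat.zero_le _
    · rw [sub, MvPolynomial.coeff_add, MvPolynomial.coeff_sum]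
      refine Submodule.add_mem _ (Submodule.sum_mem _ fun t _ => ?_) ?_
      · rw [MvPolynomial.coeff_C_mul, MvPolynomial.coeff_X]
        split_ifs
        · rw [mul_one]
          have h2 : ((M s t : ℚ) : ℂ) = (M s t : ℚ) • (1 : ℂ) := by
            rw [Rat.smul_def, mul_one]
          rw [h2]
          exact Submodule.smul_mem _ _ h1
        · rw [mul_zero]
          exact Submodule.zero_mem _
      · rw [MvPolynomial.coeff_C]
        split_ifs
        · exact hle (hx s)
        · exact Submodule.zero_mem _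
  have hD := DC.subst' (V := (V ^ e).restrictScalars ℚ) (W := V.restrictScalars ℚ) h1 (sub M v) hLD (P := P)
    ⟨hPd, hPc⟩
  refine ⟨K, hK, hd, MvPolynomial.aeval (sub M v) P, ?_, hD.1, fun s => ?_, ?_⟩
  · intro h0
    exact hP0 (sub_inj M hM v (h0.trans (map_zero _).symm))
  · rw [pow_add]
    exact res_mul (V := V ^ e) (W := V ^ δ) le_rfl (res_pow V δ) (hD.2 s)
  · rw [MvPolynomial.comp_aeval_apply]
    have h3 : (fun i => MvPolynomial.aeval y (sub M v i)) = x := by
      funext i
      simp [sub, hv]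
    rw [h3]
    exact hPv

end Lin

/-- lifting to a polynomial over a number field -/
theorem BadW.lift {d δ e : ℕ} {υ κ : Type} {w : υ → ℂ} {y : κ → ℂ} (h : BadW d δ e w y) :
    ∃ K : IntermediateField ℚ ℂ, FiniteDimensional ℚ K ∧ finrank ℚ K ≤ d ∧ ∃ P : MvPolynomial (υ ⊕ κ) K,
      P.totalDegree ≤ e + δ ∧ MvPolynomial.aeval (Sum.elim w y) P = 0 ∧
      MvPolynomial.aeval (Sum.elim (fun j => MvPolynomial.C (w j)) MvPolynomial.X) P ≠ (0 : MvPolynomial κ ℂ) := by
  classical
  obtain ⟨K, hK, hKd, P, hP0, hPd, hPc, hPv⟩ := h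
  choose p hpd hpv using fun s => lift_pow w e (hPc s)
  set P' : MvPolynomial (υ ⊕ κ) K := ∑ s ∈ P.support, MvPolynomial.rename Sum.inl (p s) *
    MvPolynomial.rename Sum.inr (MvPolynomial.monomial s (1 : K)) with hP'
  have hdeg : P'.totalDegree ≤ e + δ := by
    refine MvPolynomial.totalDegree_finsetSum_le fun s hs => ?_
    refine (MvPolynomial.totalDegree_mul _ _).trans (add_le_add ?_ ?_)
    · exact (MvPolynomial.totalDegree_rename_le _ _).trans (hpd s)
    · refine (MvPolynomial.totalDegree_rename_le _ _).trans ?_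
      refine (MvPolynomial.totalDegree_monomial_le _ _).trans ?_
      exact (MvPolynomial.le_totalDegree hs).trans hPd
  have hval' : ∀ (R : Type) [CommRing R] [Algebra ℂ R] (z : κ → R),
      MvPolynomial.aeval (Sum.elim (fun j => algebraMap ℂ R (w j)) z) P' = MvPolynomial.aeval z P := by
    intro R _ _ z
    rw [hP', map_sum]
    conv_rhs => rw [MvPolynomial.as_sum P, map_sum]
    refine Finset.sum_congr rfl fun s _ => ?_
    rw [map_mul, MvPolynomial.aeval_rename, MvPolynomial.aeval_rename, MvPolynomial.aeval_monomial,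
      MvPolynomial.aeval_monomial, map_one, one_mul]
    congr 1
    have h1 : (Sum.elim (fun j => algebraMap ℂ R (w j)) z ∘ Sum.inl) = fun j => algebraMap ℂ R (w j) := rfl
    rw [h1, ← hpv s]
    exact MvPolynomial.aeval_algebraMap_apply R w (p s)
  refine ⟨K, hK, hKd, P', hdeg, (hval' ℂ y).trans hPv, fun h0 => hP0 ?_⟩
  have h2 := hval' (MvPolynomial κ ℂ) MvPolynomial.X
  have h3 : (fun j => algebraMap ℂ (MvPolynomial κ ℂ) (w j)) = fun j => MvPolynomial.C (w j) := rfl
  rw [h3, h0, MvPolynomial.aeval_X_left_apply] at h2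
  exact h2.symm

end Pool.Agent.X120.Rec
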