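import Pool.Agent.Y916.Om.Box

/-!
# Tuples of indices from single indices
-/

set_option autoImplicit false

open Module

namespace Pool.Agent.X120.Rec

open Pool.Agent.Y916.Om

/-- among the first `X` indices there are at most `C log X` for which the numbers `x n s` satisfy a relation; this is
uniform in the constants `w` -/
def Few {σ : Type} (x : ℕ → σ → ℂ) : Prop :=
  ∀ d δ e τ A B : ℕ, ∃ C : ℝ, 0 ≤ C ∧ ∀ (υ : Type) [Fintype υ] (w : υ → ℂ) (T : Finset υ), T.card = τ → Dom A B w T →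
    ∀ X : ℕ, 2 ≤ X → ∃ S : Finset ℕ, (S.card : ℝ) ≤ C * Real.log X ∧
      ∀ n, 1 ≤ n → n ≤ X → BadW d δ e w (x n) → n ∈ S

/-- tuples -/
theorem tuples {σ : Type} [Fintype σ] [DecidableEq σ] (k : ℕ) : ∀ (x : Fin k → ℕ → σ → ℂ), (∀ i, Few (x i)) →
    ∀ d δ e τ A B : ℕ, ∃ C : ℝ, 0 ≤ C ∧ ∀ (υ : Type) [Fintype υ] (w : υ → ℂ) (T : Finset υ), T.card = τ →
      Dom A B w T → ∀ X : ℕ, 2 ≤ X → ∃ S : Finset (Fin k → ℕ), (S.card : ℝ) * X ≤ C * (X : ℝ) ^ k * Real.log X ∧
        ∀ n : Fin k → ℕ, (∀ i, 1 ≤ n i ∧ n i ≤ X) →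
          BadW d δ e w (fun q : Fin k × σ => x q.1 (n q.1) q.2) → n ∈ S := by
  classical
  induction k with
  | zero =>
    intro x _ d δ e τ A B
    refine ⟨0, le_rfl, fun υ _ w T _ _ X _ => ⟨∅, by simp, ?_⟩⟩
    rintro n - ⟨K, -, -, P, hP0, -, -, hPv⟩
    obtain ⟨a, rfl⟩ : ∃ a, P = MvPolynomial.C a := ⟨_, MvPolynomial.eq_C_of_isEmpty P⟩
    rw [MvPolynomial.aeval_C] at hPv
    exfalso
    apply hP0
    have : a = 0 := hPv
    rw [this, map_zero]
  | succ k ih =>
    intro x hx d δ e τ A B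
    obtain ⟨C₁, hC₁, h₁⟩ := ih (fun i => x i.succ) (fun i => hx i.succ) d δ e τ A B
    obtain ⟨C₂, hC₂, h₂⟩ := hx 0 d δ (e + δ) (τ + k * Fintype.card σ) A B
    refine ⟨C₁ + C₂, by positivity, fun υ _ w T hT hD X hX => ?_⟩
    obtain ⟨S₁, hS₁, hm₁⟩ := h₁ υ w T hT hD X hX
    set y : (Fin k → ℕ) → Fin k × σ → ℂ := fun g q => x q.1.succ (g q.1) q.2 with hy
    have hD' : ∀ g, Dom A B (Sum.elim w (y g)) (T.disjSum Finset.univ) := by
      intro g
      refine hD.of _ _ (fun j hj => ⟨Sum.inl j, Finset.inl_mem_disjSum.2 hj, rfl⟩) ?_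
      rintro (j | j)
      · exact Or.inr ⟨j, rfl⟩
      · exact Or.inl (Finset.inr_mem_disjSum.2 (Finset.mem_univ _))
    have hex : ∀ g : Fin k → ℕ, ∃ S : Finset ℕ, (S.card : ℝ) ≤ C₂ * Real.log X ∧
        ∀ n, 1 ≤ n → n ≤ X → BadW d δ (e + δ) (Sum.elim w (y g)) (x 0 n) → n ∈ S := fun g =>
      h₂ (υ ⊕ Fin k × σ) (Sum.elim w (y g)) (T.disjSum Finset.univ)
        (by rw [Finset.card_disjSum, hT, Finset.card_univ, Fintype.card_prod, Fintype.card_fin]) (hD' g) X hX
    choose S₂ hS₂ hm₂ using hex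
    set bx : Finset (Fin k → ℕ) := Fintype.piFinset fun _ : Fin k => Finset.Icc 1 X with hbx
    refine ⟨((Finset.Icc 1 X ×ˢ S₁).image fun p => (Fin.cons p.1 p.2 : Fin (k + 1) → ℕ)) ∪
      bx.biUnion fun g => (S₂ g).image fun m => (Fin.cons m g : Fin (k + 1) → ℕ), ?_, ?_⟩
    · have hlog : 0 ≤ Real.log X := Real.log_nonneg (by exact_mod_cast (by omega : 1 ≤ X))
      have hX0 : (0 : ℝ) ≤ X := Nat.cast_nonneg X
      have hbc : bx.card = X ^ k := by
        rw [hbx, Fintype.card_piFinset]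
        simp
      have h1 : (((((Finset.Icc 1 X ×ˢ S₁).image fun p => (Fin.cons p.1 p.2 : Fin (k + 1) → ℕ)) ∪
          bx.biUnion fun g => (S₂ g).image fun m => (Fin.cons m g : Fin (k + 1) → ℕ)).card : ℕ) : ℝ) ≤
          X * S₁.card + (X : ℝ) ^ k * (C₂ * Real.log X) := by
        have h2 := Finset.card_union_le ((Finset.Icc 1 X ×ˢ S₁).image fun p => (Fin.cons p.1 p.2 : Fin (k + 1) → ℕ))
          (bx.biUnion fun g => (S₂ g).image fun m => (Fin.cons m g : Fin (k + 1) → ℕ))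
        have h3 : ((Finset.Icc 1 X ×ˢ S₁).image fun p => (Fin.cons p.1 p.2 : Fin (k + 1) → ℕ)).card ≤
            X * S₁.card := by
          refine Finset.card_image_le.trans ?_
          rw [Finset.card_product, Nat.card_Icc, Nat.add_sub_cancel]
        have h4 : (((bx.biUnion fun g => (S₂ g).image fun m => (Fin.cons m g : Fin (k + 1) → ℕ)).card : ℕ) : ℝ) ≤
            (X : ℝ) ^ k * (C₂ * Real.log X) := by
          have h5 : (bx.biUnion fun g => (S₂ g).image fun m => (Fin.cons m g : Fin (k + 1) → ℕ)).card ≤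
              ∑ g ∈ bx, (S₂ g).card :=
            Finset.card_biUnion_le.trans (Finset.sum_le_sum fun g _ => Finset.card_image_le)
          have h6 : ((∑ g ∈ bx, (S₂ g).card : ℕ) : ℝ) ≤ bx.card • (C₂ * Real.log X) := by
            rw [Nat.cast_sum]
            exact Finset.sum_le_card_nsmul _ _ _ fun g _ => hS₂ g
          rw [hbc, nsmul_eq_mul] at h6
          push_cast at h6
          exact (by exact_mod_cast h5 : _ ≤ _).trans h6
        calc _ ≤ ((((Finset.Icc 1 X ×ˢ S₁).image fun p => (Fin.cons p.1 p.2 : Fin (k + 1) → ℕ)).card : ℕ) : ℝ) +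
              (((bx.biUnion fun g => (S₂ g).image fun m => (Fin.cons m g : Fin (k + 1) → ℕ)).card : ℕ) : ℝ) := by
              exact_mod_cast h2
          _ ≤ _ := add_le_add (by exact_mod_cast h3) h4
      calc _ ≤ (X * S₁.card + (X : ℝ) ^ k * (C₂ * Real.log X)) * X := mul_le_mul_of_nonneg_right h1 hX0
        _ = X * (S₁.card * X) + C₂ * (X : ℝ) ^ (k + 1) * Real.log X := by ring
        _ ≤ X * (C₁ * (X : ℝ) ^ k * Real.log X) + C₂ * (X : ℝ) ^ (k + 1) * Real.log X := by gcongr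
        _ = _ := by ring
    · intro n hn hbad
      set en : Fin k × σ ⊕ σ ≃ Fin (k + 1) × σ :=
        { toFun := Sum.elim (fun p => (p.1.succ, p.2)) (fun s => (0, s))
          invFun := fun p => Fin.cases (Sum.inr p.2) (fun i => Sum.inl (i, p.2)) p.1
          left_inv := by rintro (⟨i, s⟩ | s) <;> simp
          right_inv := by
            rintro ⟨i, s⟩
            refine Fin.cases ?_ (fun i => ?_) i <;> simp } with he
      have h4 : (fun j => x (en j).1 (n (en j).1) (en j).2) =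
          Sum.elim (y fun i => n i.succ) (x 0 (n 0)) := by
        funext j
        rcases j with ⟨i, s⟩ | s
        · rfl
        · rfl
      have h3 : BadW d δ e w (Sum.elim (y fun i => n i.succ) (x 0 (n 0))) := by
        obtain ⟨K, hK1, hK2, hK3⟩ := hbad
        refine ⟨K, hK1, hK2, ?_⟩
        rw [← h4]
        exact hK3.reindex en
      rcases h3.split with h5 | h5
      · refine Finset.mem_union_left _ (Finset.mem_image.2 ⟨(n 0, fun i => n i.succ), ?_, ?_⟩)
        · exact Finset.mem_product.2 ⟨Finset.mem_Icc.2 (hn 0), hm₁ _ (fun i => hn i.succ) h5⟩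
        · funext i
          refine Fin.cases ?_ (fun i => ?_) i <;> simp
      · refine Finset.mem_union_right _ (Finset.mem_biUnion.2 ⟨fun i => n i.succ, ?_, ?_⟩)
        · rw [hbx, Fintype.mem_piFinset]
          exact fun i => Finset.mem_Icc.2 (hn i.succ)
        · refine Finset.mem_image.2 ⟨n 0, hm₂ _ _ (hn 0).1 (hn 0).2 h5, ?_⟩
          funext i
          refine Fin.cases ?_ (fun i => ?_) i <;> simp

end Pool.Agent.X120.Rec
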